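import Pool.Agent.H887.BK.D4

set_option autoImplicit false

/-! Counting the orbits which are mapped to themselves. -/

namespace Pool.Agent.H738.BKOrb

variable {G X : Type} [Group G] [MulAction G X]

/-- the points whose image lies in their orbit -/
def TT (F : X → X) (hF : ∀ (g : G) (x : X), F (g • x) = g • F x) : SubMulAction G X where
  carrier := {x | F x ∈ MulAction.orbit G x}
  smul_mem' := by
    intro g x hx
    obtain ⟨k, hk⟩ := hx
    have hk' : k • x = F x := hk
    refine ⟨g * k * g⁻¹, ?_⟩
    change (g * k * g⁻¹) • g • x = F (g • x)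
    rw [hF, ← hk', smul_smul, smul_smul]
    congr 1
    group

theorem card_orb (F : X → X) (hF : ∀ (g : G) (x : X), F (g • x) = g • F x) :
    Nat.card (Quotient (MulAction.orbitRel G (TT F hF))) =
      Nat.card {o : Set X // ∃ x, o = MulAction.orbit G x ∧ F x ∈ o} := by
  have hco : ∀ x y : TT F hF, (MulAction.orbitRel G (TT F hF)).r x y ↔
      MulAction.orbit G (x : X) = MulAction.orbit G (y : X) := by
    intro x y
    rw [MulAction.orbit_eq_iff]
    constructor
    · rintro ⟨g, hg⟩
      exact ⟨g, congrArg Subtype.val hg⟩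
    · rintro ⟨g, hg⟩
      exact ⟨g, Subtype.ext hg⟩
  refine Nat.card_congr (Equiv.ofBijective (Quotient.lift
    (fun x : TT F hF => (⟨MulAction.orbit G (x : X), x, rfl, x.2⟩ :
      {o : Set X // ∃ x, o = MulAction.orbit G x ∧ F x ∈ o}))
    (fun x y h => Subtype.ext ((hco x y).1 h))) ⟨?_, ?_⟩)
  · intro a b
    induction a using Quotient.inductionOn with
    | h x =>
      induction b using Quotient.inductionOn with
      | h y =>
        intro h
        exact Quotient.sound ((hco x y).2 (congrArg Subtype.val h))
  · rintro ⟨o, x, rfl, hx⟩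
    exact ⟨Quotient.mk _ ⟨x, hx⟩, rfl⟩

/-- counting the orbits which are mapped to themselves -/
theorem h_Orb : Pool.Agent.H887.BK.S_Orb := by
  classical
  intro G X _ _ _ F hF hfin
  have hT : Fintype (TT F hF) := hfin.fintype
  have h1 : ∀ g : G, Nat.card {x : X // F x = g • x} =
      ∑ x : TT F hF, if F (x : X) = g • (x : X) then 1 else 0 := by
    intro g
    rw [Finset.sum_boole, Nat.cast_id, ← Fintype.card_subtype, ← Nat.card_eq_fintype_card]
    refine Nat.card_congr
      { toFun := fun x => ⟨⟨x.1, ⟨g, x.2.symm⟩⟩, x.2⟩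
        invFun := fun x => ⟨x.1.1, x.2⟩
        left_inv := fun x => rfl
        right_inv := fun x => rfl }
  have h2 : ∀ x : TT F hF, (∑ g : G, if F (x : X) = g • (x : X) then 1 else 0) =
      ∑ g : G, if g • x = x then 1 else 0 := by
    intro x
    obtain ⟨k, hk⟩ := x.2
    have hk' : k • (x : X) = F x := hk
    rw [← Equiv.sum_comp (Equiv.mulLeft k)]
    refine Finset.sum_congr rfl fun g _ => ?_
    rw [Equiv.coe_mulLeft]
    have h3 : F (x : X) = (k * g) • (x : X) ↔ g • x = x := by
      rw [mul_smul, ← hk']
      constructor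
      · intro h
        apply Subtype.ext
        exact (smul_left_cancel k h).symm
      · intro h
        have h4 : g • (x : X) = x := congrArg Subtype.val h
        rw [h4]
    exact if_congr h3 rfl rfl
  have h3 : ∀ g : G, (∑ x : TT F hF, if g • x = x then 1 else 0) =
      Fintype.card (MulAction.fixedBy (TT F hF) g) := by
    intro g
    rw [Finset.sum_boole, Nat.cast_id, ← Fintype.card_subtype]
    rfl
  have hQ : Fintype (Quotient (MulAction.orbitRel G (TT F hF))) := Fintype.ofFinite _
  rw [Finset.sum_congr rfl fun g _ => h1 g, Finset.sum_comm, Finset.sum_congr rfl fun x _ => h2 x,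
    Finset.sum_comm, Finset.sum_congr rfl fun g _ => h3 g,
    MulAction.sum_card_fixedBy_eq_card_orbits_mul_card_group G (TT F hF), mul_comm,
    ← card_orb F hF, Nat.card_eq_fintype_card]

end Pool.Agent.H738.BKOrb

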